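import Mathlib

set_option autoImplicit false

namespace Pool.Agent.Results.MP_16080b_co.ThirdRound

open Finset

/-! ## The eternal vertex colouring game -/

section Game

/-- A position of the game with colours `Fin k`: whose turn it is, the number of the current round,
the vertices already picked in the current round, and the current (partial) colouring. -/
structure Pos (V : Type) (k : ℕ) where
  alice : Bool
  round : ℕ
  picked : Finset V
  col : V → Option (Fin k)

variable {V : Type} {k : ℕ}

/-- The initial position: round 1, Alice to move, nothing picked, nothing coloured. -/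
def start (V : Type) (k : ℕ) : Pos V k := ⟨true, 1, ∅, fun _ => none⟩

/-- Colour `a` is allowed for the picked vertex `v`: it differs from the present colour of `v`
(if any) and no neighbour of `v` has it. -/
def Allowed (G : SimpleGraph V) (p : Pos V k) (v : V) (a : Fin k) : Prop :=
  p.col v ≠ some a ∧ ∀ w, G.Adj v w → p.col w ≠ some a

variable [Fintype V] [DecidableEq V]

/-- The position after the mover picks `v` and gives it colour `a`.  When every vertex has been
picked in the current round, the next round starts. -/
def next (p : Pos V k) (v : V) (a : Fin k) : Pos V k :=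
  if insert v p.picked = univ then
    ⟨!p.alice, p.round + 1, ∅, Function.update p.col v (some a)⟩
  else ⟨!p.alice, p.round, insert v p.picked, Function.update p.col v (some a)⟩

/-- `BobForces G r p`: from position `p`, Bob can force a win in a round whose number is at most
`r` (least fixed point: Bob wins when a picked vertex admits no allowed colour, whoever picked it;
at Bob's turn some move must work, at Alice's turn every move must work). -/
inductive BobForces (G : SimpleGraph V) (r : ℕ) : Pos V k → Prop
  | stuck (p : Pos V k) (v : V) (hb : p.alice = false) (hr : p.round ≤ r) (hv : v ∉ p.picked)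
      (hs : ∀ a, ¬ Allowed G p v a) : BobForces G r p
  | bob (p : Pos V k) (v : V) (a : Fin k) (hb : p.alice = false) (hv : v ∉ p.picked)
      (ha : Allowed G p v a) (h : BobForces G r (next p v a)) : BobForces G r p
  | alice (p : Pos V k) (hb : p.alice = true) (hr : p.round ≤ r)
      (h : ∀ v, v ∉ p.picked → ∀ a, Allowed G p v a → BobForces G r (next p v a)) :
      BobForces G r p

/-- Alice has a winning strategy in the game with `k` colours: there is a set `S` of positions
containing the initial one such that at Alice's turns in `S` she has a legal move staying in `S`,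
and at Bob's turns in `S` no vertex he may pick is without allowed colour, and all his moves
stay in `S`. -/
def AliceWins (G : SimpleGraph V) (k : ℕ) : Prop :=
  ∃ S : Set (Pos V k), start V k ∈ S ∧ ∀ p ∈ S,
    (p.alice = true → ∃ v, v ∉ p.picked ∧ ∃ a, Allowed G p v a ∧ next p v a ∈ S) ∧
    (p.alice = false → ∀ v, v ∉ p.picked →
      (∃ a, Allowed G p v a) ∧ ∀ a, Allowed G p v a → next p v a ∈ S)

/-- `χ_g^∞(G)`: the least `k ≥ 1` for which Alice has a winning strategy. -/
noncomputable def chiInf (G : SimpleGraph V) : ℕ := sInf {k | 1 ≤ k ∧ AliceWins G k}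

/-- `r(G,k)`: the least `r` such that Bob can force his win during one of rounds `1, ..., r`. -/
noncomputable def rounds (G : SimpleGraph V) (k : ℕ) : ℕ := sInf {r | BobForces G r (start V k)}

theorem not_aliceWins_of_bobForces (G : SimpleGraph V) (r : ℕ)
    (h : BobForces G r (start V k)) : ¬ AliceWins G k := by
  rintro ⟨S, hS, hcl⟩
  have key : ∀ p : Pos V k, BobForces G r p → p ∉ S := by
    intro p hp
    induction hp with
    | stuck p v hb hr hv hs =>
      intro hpS
      obtain ⟨a, ha⟩ := ((hcl p hpS).2 hb v hv).1
      exact hs a ha
    | bob p v a hb hv ha _ ih =>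
      intro hpS
      exact ih (((hcl p hpS).2 hb v hv).2 a ha)
    | alice p hb hr _ ih =>
      intro hpS
      obtain ⟨v, hv, a, ha, hn⟩ := (hcl p hpS).1 hb
      exact ih v hv a ha hn
  exact key _ h hS

theorem BobForces.mono {G : SimpleGraph V} {R R' : ℕ} (hR : R ≤ R') {p : Pos V k}
    (h : BobForces G R p) : BobForces G R' p := by
  induction h with
  | stuck p v hb hr hv hs => exact .stuck p v hb (hr.trans hR) hv hs
  | bob p v a hb hv ha _ ih => exact .bob p v a hb hv ha ih
  | alice p hb hr _ ih => exact .alice p hb (hr.trans hR) ih

/-- Determinacy: Alice has a winning strategy if and only if Bob cannot force a win in any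
bounded number of rounds. -/
theorem aliceWins_iff [Nonempty V] (G : SimpleGraph V) :
    AliceWins G k ↔ ∀ r, ¬ BobForces G r (start V k) := by
  constructor
  · intro h r hr
    exact not_aliceWins_of_bobForces G r hr h
  · intro h
    refine ⟨{p | ∀ r, ¬ BobForces G r p}, h, ?_⟩
    intro p hp
    constructor
    · intro ha
      by_contra hno
      push Not at hno
      -- every move of Alice leads to a position won by Bob within some number of rounds
      have h1 : ∀ x : V × Fin k, ∃ r, x.1 ∉ p.picked → Allowed G p x.1 x.2 →
          BobForces G r (next p x.1 x.2) := by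
        rintro ⟨v, a⟩
        by_cases hv : v ∉ p.picked ∧ Allowed G p v a
        · have := hno v hv.1 a hv.2
          simp only [Set.mem_ofPred_eq] at this
          push Not at this
          obtain ⟨r, hr⟩ := this
          exact ⟨r, fun _ _ => hr⟩
        · exact ⟨0, fun h1 h2 => absurd ⟨h1, h2⟩ hv⟩
      choose f hf using h1
      refine hp (max p.round (univ.sup f)) (.alice p ha (le_max_left _ _) ?_)
      intro v hv a hva
      exact (hf (v, a) hv hva).mono
        ((Finset.le_sup (f := f) (Finset.mem_univ (v, a))).trans (le_max_right _ _))
    · intro hb v hv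
      constructor
      · by_contra hno
        push Not at hno
        exact hp p.round (.stuck p v hb le_rfl hv hno)
      · intro a ha r hr
        exact hp r (.bob p v a hb hv ha hr)

theorem round_le_next (p : Pos V k) (v : V) (a : Fin k) : p.round ≤ (next p v a).round := by
  unfold next; split <;> simp

theorem not_bobForces_of_lt (G : SimpleGraph V) (r : ℕ) (p : Pos V k) (hp : r < p.round) :
    ¬ BobForces G r p := by
  intro h
  induction h with
  | stuck p v hb hr hv hs => omega
  | bob p v a hb hv ha _ ih => exact ih (lt_of_lt_of_le hp (round_le_next p v a))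
  | alice p hb hr _ ih => omega

/-- With at least `Δ + 2` colours no vertex is ever stuck, so Alice wins. -/
theorem aliceWins_of_large [Nonempty V] (G : SimpleGraph V) [DecidableRel G.Adj]
    (hk : ∀ v, G.degree v + 2 ≤ k) : AliceWins G k := by
  have hne : ∀ p : Pos V k, ∀ v, ∃ a, Allowed G p v a := by
    intro p v
    by_contra hno
    push Not at hno
    have hsub : (univ : Finset (Option (Fin k))) ⊆
        insert none (insert (p.col v) ((G.neighborFinset v).image p.col)) := by
      intro x _
      cases x with
      | none => simp
      | some a =>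
        have h := hno a
        unfold Allowed at h
        push Not at h
        by_cases h1 : p.col v = some a
        · simp [h1]
        · obtain ⟨w, hw, hw'⟩ := h h1
          simp only [Finset.mem_insert, Finset.mem_image, SimpleGraph.mem_neighborFinset]
          right; right
          exact ⟨w, hw, hw'⟩
    have h1 := Finset.card_le_card hsub
    have h2 : (insert none (insert (p.col v) ((G.neighborFinset v).image p.col))).card
        ≤ (G.neighborFinset v).card + 1 + 1 :=
      (Finset.card_insert_le _ _).trans (Nat.add_le_add_right
        ((Finset.card_insert_le _ _).trans (Nat.add_le_add_right Finset.card_image_le 1)) 1)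
    rw [Finset.card_univ, Fintype.card_option, Fintype.card_fin] at h1
    have h3 := hk v
    rw [← SimpleGraph.card_neighborFinset_eq_degree] at h3
    omega
  have hproper : ∀ p : Pos V k, p.picked ≠ univ → ∃ v, v ∉ p.picked := by
    intro p hp
    by_contra hno
    push Not at hno
    exact hp (Finset.eq_univ_iff_forall.2 hno)
  have hnext : ∀ (p : Pos V k) v a, (next p v a).picked ≠ univ := by
    intro p v a
    unfold next
    split
    · exact (Finset.univ_nonempty (α := V)).ne_empty.symm
    · assumption
  refine ⟨{p | p.picked ≠ univ}, ?_, ?_⟩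
  · exact (Finset.univ_nonempty (α := V)).ne_empty.symm
  · intro p hp
    refine ⟨fun _ => ?_, fun _ v _ => ⟨hne p v, fun a _ => hnext p v a⟩⟩
    obtain ⟨v, hv⟩ := hproper p hp
    obtain ⟨a, ha⟩ := hne p v
    exact ⟨v, hv, a, ha, hnext p v a⟩

end Game


/-! ## A verified evaluator for one round on `Fin n` -/

section Eval

/-- Colour codes: `0` is uncoloured, `a + 1` is colour `a`. -/
def dec (k x : ℕ) : Option (Fin k) := if h : 0 < x ∧ x ≤ k then some ⟨x - 1, by omega⟩ else none

theorem dec_eq_some {k : ℕ} (x : ℕ) (a : Fin k) : dec k x = some a ↔ x = a.val + 1 := by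
  unfold dec
  split
  · rename_i h
    rw [Option.some.injEq, Fin.ext_iff]
    simp only
    omega
  · rename_i h
    have := a.isLt
    constructor
    · intro h'; cases h'
    · intro h'; omega

/-- The colouring coded by a list. -/
def colOf (n k : ℕ) (cs : List ℕ) : Fin n → Option (Fin k) := fun v => dec k (cs.getD v 0)

/-- The vertices outside the list `us` of unpicked vertices. -/
def pickedOf (n : ℕ) (us : List ℕ) : Finset (Fin n) := univ.filter (fun v => v.val ∉ us)

/-- The position coded by lists. -/
def posOf (n k : ℕ) (al : Bool) (r : ℕ) (cs us : List ℕ) : Pos (Fin n) k :=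
  ⟨al, r, pickedOf n us, colOf n k cs⟩

/-- Fast list access (default `0`). -/
def nth : List ℕ → ℕ → ℕ
  | [], _ => 0
  | x :: _, 0 => x
  | _ :: xs, n + 1 => nth xs n

theorem nth_eq : ∀ (cs : List ℕ) (v : ℕ), nth cs v = cs.getD v 0
  | [], v => by simp [nth]
  | x :: xs, 0 => by simp [nth]
  | x :: xs, n + 1 => by simp [nth, nth_eq xs n]

/-- Fast access to neighbour lists. -/
def nthL : List (List ℕ) → ℕ → List ℕ
  | [], _ => []
  | x :: _, 0 => x
  | _ :: xs, n + 1 => nthL xs n

theorem nthL_eq : ∀ (cs : List (List ℕ)) (v : ℕ), nthL cs v = cs.getD v []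
  | [], v => by simp [nthL]
  | x :: xs, 0 => by simp [nthL]
  | x :: xs, n + 1 => by simp [nthL, nthL_eq xs n]

/-- Fast erasure. -/
def del : List ℕ → ℕ → List ℕ
  | [], _ => []
  | x :: xs, v => bif Nat.beq x v then xs else x :: del xs v

theorem del_eq : ∀ (us : List ℕ) (v : ℕ), del us v = us.erase v
  | [], v => by simp [del]
  | x :: xs, v => by
    rw [del, List.erase_cons, del_eq xs v]
    by_cases h : x = v
    · subst h; simp
    · have : Nat.beq x v = false := by
        rw [← Bool.not_eq_true]; intro h'; exact h (Nat.eq_of_beq_eq_true h')
      rw [this]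
      simp [h]

/-- No entry of `cs` at the places in the list `l` equals `a`. -/
def noneAt (cs : List ℕ) (a : ℕ) : List ℕ → Bool
  | [] => true
  | w :: l => bif Nat.beq (nth cs w) a then false else noneAt cs a l

theorem noneAt_iff (cs : List ℕ) (a : ℕ) : ∀ l : List ℕ,
    noneAt cs a l = true ↔ ∀ w ∈ l, cs.getD w 0 ≠ a
  | [] => by simp [noneAt]
  | w :: l => by
    rw [noneAt]
    by_cases h : nth cs w = a
    · have : Nat.beq (nth cs w) a = true := by rw [h]; exact Nat.beq_refl a
      rw [this]
      simp only [cond_true, Bool.false_eq_true, List.mem_cons, forall_eq_or_imp, false_iff, not_and]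
      intro h'
      exact absurd (by rw [← nth_eq]; exact h) h'
    · have : Nat.beq (nth cs w) a = false := by
        rw [← Bool.not_eq_true]; intro h'; exact h (Nat.eq_of_beq_eq_true h')
      rw [this]
      simp only [cond_false, List.mem_cons, forall_eq_or_imp, noneAt_iff cs a l]
      constructor
      · intro h'; exact ⟨by rw [← nth_eq]; exact h, h'⟩
      · intro h'; exact h'.2

/-- Boolean version of `Allowed`; `nb v` is the list of neighbours of `v`. -/
def allowedB (nb : List (List ℕ)) (cs : List ℕ) (v a : ℕ) : Bool :=
  noneAt cs a (v :: nthL nb v)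

/-- `nb` lists the neighbours of each vertex of `G`. -/
def Codes (n : ℕ) (G : SimpleGraph (Fin n)) (nb : List (List ℕ)) : Prop :=
  ∀ v w : Fin n, G.Adj v w ↔ w.val ∈ nb.getD v.val []

/-- Additional sanity: all listed neighbours are vertices. -/
def Bounded (n : ℕ) (nb : List (List ℕ)) : Prop := ∀ v : Fin n, ∀ w ∈ nb.getD v.val [], w < n

theorem allowedB_iff {n k : ℕ} {G : SimpleGraph (Fin n)} {nb : List (List ℕ)}
    (hc : Codes n G nb) (hb : Bounded n nb) (al : Bool) (r : ℕ) (cs us : List ℕ)
    (v : Fin n) (a : Fin k) :
    allowedB nb cs v.val (a.val + 1) = true ↔ Allowed G (posOf n k al r cs us) v a := by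
  unfold allowedB Allowed posOf colOf
  rw [noneAt_iff]
  simp only [List.mem_cons, forall_eq_or_imp, nthL_eq, ne_eq, dec_eq_some]
  constructor
  · rintro ⟨h1, h2⟩
    exact ⟨h1, fun w hw => h2 w.val ((hc v w).1 hw)⟩
  · rintro ⟨h1, h2⟩
    exact ⟨h1, fun w hw => h2 ⟨w, hb v w hw⟩ ((hc v ⟨w, hb v w hw⟩).2 hw)⟩

theorem colOf_set {n k : ℕ} (cs : List ℕ) (hl : cs.length = n) (v : Fin n) (a : Fin k) :
    colOf n k (cs.set v.val (a.val + 1)) = Function.update (colOf n k cs) v (some a) := by
  funext w
  unfold colOf
  by_cases h : w = v
  · subst h
    rw [Function.update_self]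
    have : (cs.set w.val (a.val + 1)).getD w.val 0 = a.val + 1 := by
      have hw : w.val < cs.length := by rw [hl]; exact w.isLt
      simp [List.getD_eq_getElem?_getD, hw]
    rw [this, dec_eq_some]
  · rw [Function.update_of_ne h]
    have hne : v.val ≠ w.val := fun e => h (Fin.ext e.symm)
    have : (cs.set v.val (a.val + 1)).getD w.val 0 = cs.getD w.val 0 := by
      simp [List.getD_eq_getElem?_getD, List.getElem?_set_ne hne]
    rw [this]

theorem pickedOf_erase {n : ℕ} (us : List ℕ) (hn : us.Nodup) (v : Fin n) :
    insert v (pickedOf n us) = pickedOf n (us.erase v.val) := by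
  ext w
  simp only [Finset.mem_insert, pickedOf, Finset.mem_filter, Finset.mem_univ, true_and,
    hn.mem_erase_iff, Fin.ext_iff]
  tauto

theorem pickedOf_eq_univ {n : ℕ} (us : List ℕ) (hlt : ∀ u ∈ us, u < n) :
    pickedOf n us = univ ↔ us = [] := by
  constructor
  · intro h
    rcases us with _ | ⟨u, us⟩
    · rfl
    · exfalso
      have : (⟨u, hlt u (by simp)⟩ : Fin n) ∈ pickedOf n (u :: us) := by rw [h]; exact mem_univ _
      simp [pickedOf] at this
  · rintro rfl
    simp [pickedOf]

/-- Universal quantifier over a list. -/
def allL {α : Type} (l : List α) (f : α → Bool) : Bool :=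
  List.rec (motive := fun _ => Bool) true (fun x _ ih => bif f x then ih else false) l

theorem allL_iff {α : Type} (l : List α) (f : α → Bool) :
    allL l f = true ↔ ∀ x ∈ l, f x = true := by
  induction l with
  | nil => simp [allL]
  | cons x l ih =>
    have : allL (x :: l) f = bif f x then allL l f else false := rfl
    rw [this]
    cases h : f x <;> simp [h, ih]

/-- Existential quantifier over a list. -/
def anyL {α : Type} (l : List α) (f : α → Bool) : Bool :=
  List.rec (motive := fun _ => Bool) false (fun x _ ih => bif f x then true else ih) l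

theorem anyL_iff {α : Type} (l : List α) (f : α → Bool) :
    anyL l f = true ↔ ∃ x ∈ l, f x = true := by
  induction l with
  | nil => simp [anyL]
  | cons x l ih =>
    have : anyL (x :: l) f = bif f x then true else anyL l f := rfl
    rw [this]
    cases h : f x <;> simp [h, ih]

/-- One round, with every completed colouring (and the player who starts the next round) judged by
`P`: can Bob win in this round, or complete it with a colouring satisfying `P`?
`ks` is the list `1, ..., k`, the natural number is the number of unpicked vertices, and the last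
list is the list of these vertices. -/
def evB (ks : List ℕ) (nb : List (List ℕ)) (P : Bool → List ℕ → Bool) (m : ℕ) :
    Bool → List ℕ → List ℕ → Bool :=
  Nat.rec (motive := fun _ => Bool → List ℕ → List ℕ → Bool)
    (fun al cs _ => P al cs)
    (fun _ ih al cs us =>
      bif al then
        allL us fun v => allL ks fun a =>
          bif allowedB nb cs v a then ih false (cs.set v a) (del us v) else true
      else
        anyL us fun v =>
          bif anyL ks (fun a =>
            bif allowedB nb cs v a then ih true (cs.set v a) (del us v) else false) then true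
          else bif anyL ks (fun a => allowedB nb cs v a) then false else true) m

theorem evB_zero (ks : List ℕ) (nb : List (List ℕ)) (P : Bool → List ℕ → Bool) (al : Bool)
    (cs us : List ℕ) : evB ks nb P 0 al cs us = P al cs := rfl

theorem evB_true (ks : List ℕ) (nb : List (List ℕ)) (P : Bool → List ℕ → Bool) (m : ℕ)
    (cs us : List ℕ) : evB ks nb P (m + 1) true cs us = true ↔
      ∀ v ∈ us, ∀ a ∈ ks, allowedB nb cs v a = true →
        evB ks nb P m false (cs.set v a) (del us v) = true := by
  have : evB ks nb P (m + 1) true cs us = allL us fun v => allL ks fun a =>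
          bif allowedB nb cs v a then evB ks nb P m false (cs.set v a) (del us v) else true := rfl
  rw [this]
  simp only [allL_iff]
  refine forall₂_congr fun v _ => forall₂_congr fun a _ => ?_
  cases allowedB nb cs v a <;> simp

theorem evB_false (ks : List ℕ) (nb : List (List ℕ)) (P : Bool → List ℕ → Bool) (m : ℕ)
    (cs us : List ℕ) : evB ks nb P (m + 1) false cs us = true ↔
      ∃ v ∈ us, (∀ a ∈ ks, ¬ allowedB nb cs v a = true) ∨ ∃ a ∈ ks, allowedB nb cs v a = true ∧
        evB ks nb P m true (cs.set v a) (del us v) = true := by
  have : evB ks nb P (m + 1) false cs us = anyL us fun v =>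
          bif anyL ks (fun a =>
            bif allowedB nb cs v a then evB ks nb P m true (cs.set v a) (del us v) else false)
          then true
          else bif anyL ks (fun a => allowedB nb cs v a) then false else true := rfl
  rw [this]
  simp only [anyL_iff]
  refine exists_congr fun v => and_congr_right fun _ => ?_
  have e1 : (anyL ks (fun a =>
      bif allowedB nb cs v a then evB ks nb P m true (cs.set v a) (del us v) else false) = true) ↔
      ∃ a ∈ ks, allowedB nb cs v a = true ∧
        evB ks nb P m true (cs.set v a) (del us v) = true := by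
    rw [anyL_iff]
    refine exists_congr fun a => and_congr_right fun _ => ?_
    cases allowedB nb cs v a <;> simp
  have e2 : (anyL ks (fun a => allowedB nb cs v a) = true) ↔
      ∃ a ∈ ks, allowedB nb cs v a = true := anyL_iff _ _
  cases h1 : anyL ks (fun a =>
      bif allowedB nb cs v a then evB ks nb P m true (cs.set v a) (del us v) else false)
  · cases h2 : anyL ks (fun a => allowedB nb cs v a)
    · rw [h2] at e2
      simp only [cond_false, true_iff]
      left
      intro a ha haa
      exact absurd (e2.2 ⟨a, ha, haa⟩) (by simp)
    · rw [h2] at e2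
      rw [h1] at e1
      simp only [cond_true, cond_false, Bool.false_eq_true, false_iff]
      rintro (h | h)
      · obtain ⟨a, ha, haa⟩ := e2.1 rfl
        exact h a ha haa
      · exact absurd (e1.2 h) (by simp)
  · rw [h1] at e1
    simp only [cond_true, true_iff]
    exact Or.inr (e1.1 rfl)

/-- One round: can Alice avoid a loss in this round and complete it with a colouring
satisfying `P`? -/
def evA (ks : List ℕ) (nb : List (List ℕ)) (P : Bool → List ℕ → Bool) (m : ℕ) :
    Bool → List ℕ → List ℕ → Bool :=
  Nat.rec (motive := fun _ => Bool → List ℕ → List ℕ → Bool)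
    (fun al cs _ => P al cs)
    (fun _ ih al cs us =>
      bif al then
        anyL us fun v => anyL ks fun a =>
          bif allowedB nb cs v a then ih false (cs.set v a) (del us v) else false
      else
        allL us fun v =>
          bif anyL ks (fun a => allowedB nb cs v a) then
            allL ks (fun a =>
              bif allowedB nb cs v a then ih true (cs.set v a) (del us v) else true)
          else false) m

theorem evA_zero (ks : List ℕ) (nb : List (List ℕ)) (P : Bool → List ℕ → Bool) (al : Bool)
    (cs us : List ℕ) : evA ks nb P 0 al cs us = P al cs := rfl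

theorem evA_true (ks : List ℕ) (nb : List (List ℕ)) (P : Bool → List ℕ → Bool) (m : ℕ)
    (cs us : List ℕ) : evA ks nb P (m + 1) true cs us = true ↔
      ∃ v ∈ us, ∃ a ∈ ks, allowedB nb cs v a = true ∧
        evA ks nb P m false (cs.set v a) (del us v) = true := by
  have : evA ks nb P (m + 1) true cs us = anyL us fun v => anyL ks fun a =>
          bif allowedB nb cs v a then evA ks nb P m false (cs.set v a) (del us v) else false := rfl
  rw [this]
  simp only [anyL_iff]
  refine exists_congr fun v => and_congr_right fun _ => exists_congr fun a =>
    and_congr_right fun _ => ?_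
  cases allowedB nb cs v a <;> simp

theorem evA_false (ks : List ℕ) (nb : List (List ℕ)) (P : Bool → List ℕ → Bool) (m : ℕ)
    (cs us : List ℕ) : evA ks nb P (m + 1) false cs us = true ↔
      ∀ v ∈ us, (∃ a ∈ ks, allowedB nb cs v a = true) ∧ ∀ a ∈ ks, allowedB nb cs v a = true →
        evA ks nb P m true (cs.set v a) (del us v) = true := by
  have : evA ks nb P (m + 1) false cs us = allL us fun v =>
          bif anyL ks (fun a => allowedB nb cs v a) then
            allL ks (fun a =>
              bif allowedB nb cs v a then evA ks nb P m true (cs.set v a) (del us v) else true)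
          else false := rfl
  rw [this]
  simp only [allL_iff]
  refine forall₂_congr fun v _ => ?_
  have e2 : (anyL ks (fun a => allowedB nb cs v a) = true) ↔
      ∃ a ∈ ks, allowedB nb cs v a = true := anyL_iff _ _
  have e1 : (allL ks (fun a =>
      bif allowedB nb cs v a then evA ks nb P m true (cs.set v a) (del us v) else true) = true) ↔
      ∀ a ∈ ks, allowedB nb cs v a = true →
        evA ks nb P m true (cs.set v a) (del us v) = true := by
    rw [allL_iff]
    refine forall₂_congr fun a _ => ?_
    cases allowedB nb cs v a <;> simp
  rw [← e1, ← e2]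
  cases anyL ks (fun a => allowedB nb cs v a) <;> simp

/-- The position reached after a move, in coded form. -/
theorem next_posOf {n k : ℕ} (al : Bool) (r : ℕ) (cs us : List ℕ) (hl : cs.length = n)
    (hn : us.Nodup) (hlt : ∀ u ∈ us, u < n) (v : Fin n) (a : Fin k) :
    next (posOf n k al r cs us) v a =
      if us.erase v.val = [] then
        ⟨!al, r + 1, ∅, colOf n k (cs.set v.val (a.val + 1))⟩
      else posOf n k (!al) r (cs.set v.val (a.val + 1)) (us.erase v.val) := by
  have hlt' : ∀ u ∈ us.erase v.val, u < n := fun u hu => hlt u (List.mem_of_mem_erase hu)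
  unfold next
  have e1 : (posOf n k al r cs us).picked = pickedOf n us := rfl
  have e2 : (posOf n k al r cs us).col = colOf n k cs := rfl
  rw [e1, e2, pickedOf_erase us hn v, ← colOf_set cs hl v a]
  by_cases h : us.erase v.val = []
  · rw [if_pos ((pickedOf_eq_univ _ hlt').2 h), if_pos h]; rfl
  · rw [if_neg (fun h' => h ((pickedOf_eq_univ _ hlt').1 h')), if_neg h]; rfl

theorem not_mem_picked {n k : ℕ} (al : Bool) (r : ℕ) (cs us : List ℕ) (v : Fin n) :
    v ∉ (posOf n k al r cs us).picked ↔ v.val ∈ us := by
  simp [posOf, pickedOf]

/-- The list of colour codes. -/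
def colours (k : ℕ) : List ℕ := List.range' 1 k

theorem mem_colours {k a : ℕ} : a ∈ colours k ↔ 1 ≤ a ∧ a < 1 + k := by
  simp [colours, List.mem_range'_1]

theorem exists_fin_of_mem {k a : ℕ} (h : a ∈ colours k) : ∃ a' : Fin k, a = a'.val + 1 := by
  rw [mem_colours] at h
  exact ⟨⟨a - 1, by omega⟩, by simp; omega⟩

theorem fin_mem {k : ℕ} (a : Fin k) : a.val + 1 ∈ colours k := by
  rw [mem_colours]; have := a.isLt; omega

theorem evB_sound {n k : ℕ} {G : SimpleGraph (Fin n)} {nb : List (List ℕ)}
    (hc : Codes n G nb) (hb : Bounded n nb) (P : Bool → List ℕ → Bool) (R r : ℕ) (hr : r ≤ R)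
    (hP : ∀ al cs, cs.length = n → P al cs = true →
      BobForces G R (⟨al, r + 1, ∅, colOf n k cs⟩ : Pos (Fin n) k)) :
    ∀ (m : ℕ) (al : Bool) (cs us : List ℕ), us.length = m + 1 → cs.length = n → us.Nodup →
      (∀ u ∈ us, u < n) → evB (colours k) nb P (m + 1) al cs us = true →
      BobForces G R (posOf n k al r cs us) := by
  intro m
  -- the common part of both cases
  have main : ∀ (m : ℕ), (∀ (al : Bool) (cs us : List ℕ) (v : Fin n) (a : Fin k),
      us.length = m + 1 → cs.length = n → us.Nodup → (∀ u ∈ us, u < n) → v.val ∈ us →
      evB (colours k) nb P m (!al) (cs.set v.val (a.val + 1)) (del us v.val) = true →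
      BobForces G R (next (posOf n k al r cs us) v a)) →
      ∀ (al : Bool) (cs us : List ℕ), us.length = m + 1 → cs.length = n → us.Nodup →
      (∀ u ∈ us, u < n) → evB (colours k) nb P (m + 1) al cs us = true →
      BobForces G R (posOf n k al r cs us) := by
    intro m hnext al cs us hus hcs hnd hlt hev
    cases al with
    | true =>
      rw [evB_true] at hev
      refine BobForces.alice _ rfl hr ?_
      intro v hv a ha
      have hv' := (not_mem_picked true r cs us v).1 hv
      exact hnext true cs us v a hus hcs hnd hlt hv' (hev v.val hv' (a.val + 1) (fin_mem a)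
        ((allowedB_iff hc hb true r cs us v a).2 ha))
    | false =>
      rw [evB_false] at hev
      obtain ⟨v, hv, h⟩ := hev
      have hvn := hlt v hv
      have hvp := (not_mem_picked (k := k) false r cs us ⟨v, hvn⟩).2 hv
      rcases h with h | ⟨a, ha, h1, h2⟩
      · refine BobForces.stuck _ ⟨v, hvn⟩ rfl hr hvp ?_
        intro a ha
        exact h (a.val + 1) (fin_mem a) ((allowedB_iff hc hb false r cs us ⟨v, hvn⟩ a).2 ha)
      · obtain ⟨a', rfl⟩ := exists_fin_of_mem ha
        exact BobForces.bob _ ⟨v, hvn⟩ a' rfl hvp
          ((allowedB_iff hc hb false r cs us ⟨v, hvn⟩ a').1 h1)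
          (hnext false cs us ⟨v, hvn⟩ a' hus hcs hnd hlt hv h2)
  induction m with
  | zero =>
    apply main
    intro al cs us v a hus hcs hnd hlt hv hev'
    rw [del_eq, evB_zero] at hev'
    have he : us.erase v.val = [] := by
      apply List.eq_nil_of_length_eq_zero
      rw [List.length_erase_of_mem hv, hus]
    rw [next_posOf al r cs us hcs hnd hlt, if_pos he]
    exact hP _ _ (by simp [hcs]) hev'
  | succ m ih =>
    apply main
    intro al cs us v a hus hcs hnd hlt hv hev'
    rw [del_eq] at hev'
    have hle : (us.erase v.val).length = m + 1 := by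
      rw [List.length_erase_of_mem hv, hus]; rfl
    have he : us.erase v.val ≠ [] := by
      intro h; rw [h] at hle; simp at hle
    rw [next_posOf al r cs us hcs hnd hlt, if_neg he]
    exact ih _ _ _ hle (by simp [hcs]) (hnd.erase _)
      (fun u hu => hlt u (List.mem_of_mem_erase hu)) hev'

/-- Inversion at Alice's turn. -/
theorem inv_alice {V : Type} [Fintype V] [DecidableEq V] {k : ℕ} {G : SimpleGraph V} {R : ℕ}
    {p : Pos V k} (h : BobForces G R p) (hp : p.alice = true) :
    ∀ v, v ∉ p.picked → ∀ a, Allowed G p v a → BobForces G R (next p v a) := by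
  cases h with
  | stuck _ v hb hr hv hs => rw [hp] at hb; cases hb
  | bob _ v a hb hv ha h => rw [hp] at hb; cases hb
  | alice _ hb hr h => exact h

/-- Inversion at Bob's turn. -/
theorem inv_bob {V : Type} [Fintype V] [DecidableEq V] {k : ℕ} {G : SimpleGraph V} {R : ℕ}
    {p : Pos V k} (h : BobForces G R p) (hp : p.alice = false) :
    ∃ v, v ∉ p.picked ∧ ((∀ a, ¬ Allowed G p v a) ∨
      ∃ a, Allowed G p v a ∧ BobForces G R (next p v a)) := by
  cases h with
  | stuck _ v hb hr hv hs => exact ⟨v, hv, Or.inl hs⟩
  | bob _ v a hb hv ha h => exact ⟨v, hv, Or.inr ⟨a, ha, h⟩⟩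
  | alice _ hb hr h => rw [hp] at hb; cases hb

theorem evA_sound {n k : ℕ} {G : SimpleGraph (Fin n)} {nb : List (List ℕ)}
    (hc : Codes n G nb) (hb : Bounded n nb) (P : Bool → List ℕ → Bool) (R r : ℕ)
    (hP : ∀ al cs, cs.length = n → P al cs = true →
      ¬ BobForces G R (⟨al, r + 1, ∅, colOf n k cs⟩ : Pos (Fin n) k)) :
    ∀ (m : ℕ) (al : Bool) (cs us : List ℕ), us.length = m + 1 → cs.length = n → us.Nodup →
      (∀ u ∈ us, u < n) → evA (colours k) nb P (m + 1) al cs us = true →
      ¬ BobForces G R (posOf n k al r cs us) := by
  intro m
  have main : ∀ (m : ℕ), (∀ (al : Bool) (cs us : List ℕ) (v : Fin n) (a : Fin k),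
      us.length = m + 1 → cs.length = n → us.Nodup → (∀ u ∈ us, u < n) → v.val ∈ us →
      evA (colours k) nb P m (!al) (cs.set v.val (a.val + 1)) (del us v.val) = true →
      ¬ BobForces G R (next (posOf n k al r cs us) v a)) →
      ∀ (al : Bool) (cs us : List ℕ), us.length = m + 1 → cs.length = n → us.Nodup →
      (∀ u ∈ us, u < n) → evA (colours k) nb P (m + 1) al cs us = true →
      ¬ BobForces G R (posOf n k al r cs us) := by
    intro m hnext al cs us hus hcs hnd hlt hev hbf
    cases al with
    | true =>
      rw [evA_true] at hev
      obtain ⟨v, hv, a, ha, h1, h2⟩ := hev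
      have hvn := hlt v hv
      obtain ⟨a', rfl⟩ := exists_fin_of_mem ha
      exact hnext true cs us ⟨v, hvn⟩ a' hus hcs hnd hlt hv h2 (inv_alice hbf rfl ⟨v, hvn⟩
        ((not_mem_picked (k := k) true r cs us ⟨v, hvn⟩).2 hv) a'
        ((allowedB_iff hc hb true r cs us ⟨v, hvn⟩ a').1 h1))
    | false =>
      rw [evA_false] at hev
      obtain ⟨v, hv, h⟩ := inv_bob hbf rfl
      have hv' := (not_mem_picked false r cs us v).1 hv
      obtain ⟨⟨a, ha, haa⟩, hall⟩ := hev v.val hv'
      rcases h with h | ⟨a', ha', h⟩
      · obtain ⟨a', rfl⟩ := exists_fin_of_mem ha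
        exact h a' ((allowedB_iff hc hb false r cs us v a').1 haa)
      · exact hnext false cs us v a' hus hcs hnd hlt hv' (hall (a'.val + 1) (fin_mem a')
          ((allowedB_iff hc hb false r cs us v a').2 ha')) h
  induction m with
  | zero =>
    apply main
    intro al cs us v a hus hcs hnd hlt hv hev'
    rw [del_eq, evA_zero] at hev'
    have he : us.erase v.val = [] := by
      apply List.eq_nil_of_length_eq_zero
      rw [List.length_erase_of_mem hv, hus]
    rw [next_posOf al r cs us hcs hnd hlt, if_pos he]
    exact hP _ _ (by simp [hcs]) hev'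
  | succ m ih =>
    apply main
    intro al cs us v a hus hcs hnd hlt hv hev'
    rw [del_eq] at hev'
    have hle : (us.erase v.val).length = m + 1 := by
      rw [List.length_erase_of_mem hv, hus]; rfl
    have he : us.erase v.val ≠ [] := by
      intro h; rw [h] at hle; simp at hle
    rw [next_posOf al r cs us hcs hnd hlt, if_neg he]
    exact ih _ _ _ hle (by simp [hcs]) (hnd.erase _)
      (fun u hu => hlt u (List.mem_of_mem_erase hu)) hev'

/-- All lists of length `n` with entries `1, ..., k`. -/
def allLists (k : ℕ) : ℕ → List (List ℕ)
  | 0 => [[]]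
  | n + 1 => (List.range' 1 k).flatMap fun x => (allLists k n).map (x :: ·)

theorem mem_allLists {k : ℕ} : ∀ {n : ℕ} {cs : List ℕ}, cs.length = n →
    (∀ x ∈ cs, 1 ≤ x ∧ x ≤ k) → cs ∈ allLists k n
  | 0, cs, hl, _ => by
    rw [List.length_eq_zero_iff] at hl
    subst hl
    simp [allLists]
  | n + 1, [], hl, _ => by simp at hl
  | n + 1, x :: cs, hl, h => by
    simp only [allLists, List.mem_flatMap, List.mem_range'_1, List.mem_map]
    have hx := h x (by simp)
    exact ⟨x, by omega, cs, mem_allLists (by simpa using hl)
      (fun y hy => h y (by simp [hy])), rfl⟩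

/-- The number coding a completed colouring. -/
def codeOf (k : ℕ) (cs : List ℕ) : ℕ := cs.foldl (fun acc x => acc * (k + 1) + x) 0

/-- Judge a completed colouring by the set of codes `B`, when `e` starts the next round. -/
def judge (k n : ℕ) (e : Bool) (B : ℕ) (al : Bool) (cs : List ℕ) : Bool :=
  (al == e) && (Nat.beq cs.length n && ((cs.all fun x => Nat.ble 1 x && Nat.ble x k) &&
    B.testBit (codeOf k cs)))

theorem judge_true {k n : ℕ} {e : Bool} {B : ℕ} {al : Bool} {cs : List ℕ}
    (h : judge k n e B al cs = true) : al = e ∧ cs.length = n ∧ cs ∈ allLists k n := by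
  simp only [judge, Bool.and_eq_true, beq_iff_eq, List.all_eq_true, Nat.ble_eq] at h
  have hl := Nat.eq_of_beq_eq_true h.2.1
  exact ⟨h.1, hl, mem_allLists hl h.2.2.1⟩

/-- The Boolean check for Bob from the start of a round. -/
def stageB (k n : ℕ) (nb : List (List ℕ)) (e : Bool) (B : ℕ) (e' : Bool) (B' : ℕ) : Bool :=
  (allLists k n).all fun cs => !judge k n e B e cs ||
    evB (colours k) nb (judge k n e' B') n e cs (List.range n)

/-- The Boolean check for Alice from the start of a round. -/
def stageA (k n : ℕ) (nb : List (List ℕ)) (e : Bool) (B : ℕ) (e' : Bool) (B' : ℕ) : Bool :=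
  (allLists k n).all fun cs => !judge k n e B e cs ||
    evA (colours k) nb (judge k n e' B') n e cs (List.range n)

/-- Every colouring in `B` is won by Bob at the start of round `r`. -/
def GoodB (n k : ℕ) (G : SimpleGraph (Fin n)) (R r : ℕ) (e : Bool) (B : ℕ) : Prop :=
  ∀ al cs, cs.length = n → judge k n e B al cs = true →
    BobForces G R (⟨al, r, ∅, colOf n k cs⟩ : Pos (Fin n) k)

/-- No colouring in `B` is won by Bob at the start of round `r`. -/
def GoodA (n k : ℕ) (G : SimpleGraph (Fin n)) (R r : ℕ) (e : Bool) (B : ℕ) : Prop :=
  ∀ al cs, cs.length = n → judge k n e B al cs = true →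
    ¬ BobForces G R (⟨al, r, ∅, colOf n k cs⟩ : Pos (Fin n) k)

theorem posOf_range {n k : ℕ} (al : Bool) (r : ℕ) (cs : List ℕ) :
    posOf n k al r cs (List.range n) = ⟨al, r, ∅, colOf n k cs⟩ := by
  have : pickedOf n (List.range n) = ∅ := by
    ext v; simp [pickedOf]
  unfold posOf
  rw [this]

theorem stageB_sound {n k : ℕ} {G : SimpleGraph (Fin (n + 1))} {nb : List (List ℕ)}
    (hc : Codes (n + 1) G nb) (hb : Bounded (n + 1) nb) (R r : ℕ) (hr : r ≤ R)
    (e : Bool) (B : ℕ) (e' : Bool) (B' : ℕ) (hP : GoodB (n + 1) k G R (r + 1) e' B')
    (h : stageB k (n + 1) nb e B e' B' = true) : GoodB (n + 1) k G R r e B := by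
  intro al cs hl hj
  obtain ⟨rfl, -, hmem⟩ := judge_true hj
  unfold stageB at h
  rw [List.all_eq_true] at h
  have h1 := h cs hmem
  rw [hj] at h1
  rw [← posOf_range]
  exact evB_sound hc hb _ R r hr hP n al cs (List.range (n + 1)) (by simp) hl
    List.nodup_range (fun u hu => List.mem_range.1 hu) (by simpa using h1)

theorem stageA_sound {n k : ℕ} {G : SimpleGraph (Fin (n + 1))} {nb : List (List ℕ)}
    (hc : Codes (n + 1) G nb) (hb : Bounded (n + 1) nb) (R r : ℕ)
    (e : Bool) (B : ℕ) (e' : Bool) (B' : ℕ) (hP : GoodA (n + 1) k G R (r + 1) e' B')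
    (h : stageA k (n + 1) nb e B e' B' = true) : GoodA (n + 1) k G R r e B := by
  intro al cs hl hj
  obtain ⟨rfl, -, hmem⟩ := judge_true hj
  unfold stageA at h
  rw [List.all_eq_true] at h
  have h1 := h cs hmem
  rw [hj] at h1
  rw [← posOf_range]
  exact evA_sound hc hb _ R r hP n al cs (List.range (n + 1)) (by simp) hl
    List.nodup_range (fun u hu => List.mem_range.1 hu) (by simpa using h1)

theorem goodB_zero {n k : ℕ} {G : SimpleGraph (Fin n)} (R r : ℕ) (e : Bool) :
    GoodB n k G R r e 0 := by
  intro al cs _ hj
  simp [judge] at hj

/-- After the last relevant round Alice is safe whatever the colouring. -/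
theorem goodA_of_lt {n k : ℕ} {G : SimpleGraph (Fin n)} (R r : ℕ) (e : Bool) (B : ℕ)
    (h : R < r) : GoodA n k G R r e B := by
  intro al cs _ _
  exact not_bobForces_of_lt G R _ h

theorem start_eq (n k : ℕ) : start (Fin n) k = ⟨true, 1, ∅, colOf n k (List.replicate n 0)⟩ := by
  unfold start
  congr 1
  funext v
  unfold colOf dec
  have : (List.replicate n 0).getD v.val 0 = 0 := by
    simp [List.getD_eq_getElem?_getD]
  rw [this]
  simp

theorem firstB {n k : ℕ} {G : SimpleGraph (Fin (n + 1))} {nb : List (List ℕ)}
    (hc : Codes (n + 1) G nb) (hb : Bounded (n + 1) nb) (R : ℕ) (hr : 1 ≤ R)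
    (e' : Bool) (B' : ℕ) (hP : GoodB (n + 1) k G R 2 e' B')
    (h : evB (colours k) nb (judge k (n + 1) e' B') (n + 1) true (List.replicate (n + 1) 0)
      (List.range (n + 1)) = true) : BobForces G R (start (Fin (n + 1)) k) := by
  rw [start_eq, ← posOf_range]
  exact evB_sound hc hb _ R 1 hr hP n true _ (List.range (n + 1)) (by simp) (by simp)
    List.nodup_range (fun u hu => List.mem_range.1 hu) h

theorem firstA {n k : ℕ} {G : SimpleGraph (Fin (n + 1))} {nb : List (List ℕ)}
    (hc : Codes (n + 1) G nb) (hb : Bounded (n + 1) nb) (R : ℕ)
    (e' : Bool) (B' : ℕ) (hP : GoodA (n + 1) k G R 2 e' B')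
    (h : evA (colours k) nb (judge k (n + 1) e' B') (n + 1) true (List.replicate (n + 1) 0)
      (List.range (n + 1)) = true) : ¬ BobForces G R (start (Fin (n + 1)) k) := by
  rw [start_eq, ← posOf_range]
  exact evA_sound hc hb _ R 1 hP n true _ (List.range (n + 1)) (by simp) (by simp)
    List.nodup_range (fun u hu => List.mem_range.1 hu) h

end Eval

/-! ## The star `K_{1,4}` -/

/-- The star `K_{1,4}` with centre `0`. -/
def K14 : SimpleGraph (Fin 5) where
  Adj a b := a ≠ b ∧ (a = 0 ∨ b = 0)
  symm := ⟨by decide⟩
  loopless := ⟨by decide⟩

instance : DecidableRel K14.Adj :=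
  fun a b => inferInstanceAs (Decidable (a ≠ b ∧ (a = 0 ∨ b = 0)))

/-- Neighbour lists of the star. -/
def starNb : List (List ℕ) := [[1, 2, 3, 4], [0], [0], [0], [0]]

theorem star_codes : Codes 5 K14 starNb := by unfold Codes; decide

theorem star_bounded : Bounded 5 starNb := by unfold Bounded; decide

/-- Codes of some colourings (4 colours) won by Bob at the start of round 2. -/
def b42 : ℕ := 270562916826799870827424522552271117179503791798278798411726880081754590625620104034924225980954842028120593872270224070562937230524543691492981924215406812442746380440130700044586868903775614839459995286044419201629346972277593217759844273995847342372057689188340753672474206146636824828709248946187122193900201940222577268998572967401457432844171655890493696756730230492455571042682417107873729302897586220156979394615860063639114951074635425132749685991962227194540395270405309820274105183797523319572648862683705793934161361538999561826937718089758159876024835941730838125075313637747375719046511032579680690708118081854861901881796882274218535817736645867083361829130239068204364766023282606257113030650565984273568626520650598334251250006039352371670356813039578621669004009557030334842602800857718539652431872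

/-- Codes of some colourings (4 colours) won by Bob at the start of round 3. -/
def b43 : ℕ := 2377642222601606990623073096204046246639677952335596069963853549034679811569854222032613199440158842059848667548503567915861370004161804867465604449566003682388394520008685715282107494322720146081844049211675740184265110087434895793321645378501328332141005077106323411701590637793481499468662009082986184632905462717284683134948033261834796394855426450039195901698078175281052630292043140839064348714236921619683638263775292769299130299554458250040913521970916186391745256346783715160407958983132856245607070345731314450837430380291126876345257125184084766713725727198599914215740885835507548746513293071575000070285040543667527020000470536007992609845430563335617815633726615610325679929410894878778169829464082091538092324274054920623909333444228110950008165499311922185327079593558337623780851364682264456098466179154015045650676919759632734388977126616434846656679295583871726827023106048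

/-- Codes of some colourings (4 colours) where Alice survives round 2. -/
def a42 : ℕ := 2586573501439741857462748041285197980059890257091836244040721683082659429526511050625512714001899506515830195920398049663951273988232909223513253072926154613762520247883073345830767353045406505596258270409921338135009721935168211635502134860709912648631948220560833932033230345517034531045798325954530933568710319924880375236904218374004376684424541954680393298264701475487744

/-- Codes of the colourings (3 colours) won by Bob at the start of round 2. -/
def b32 : ℕ := 3703077125308164878328041762904596201745393633992099942363063299004693458378592776507297148653324991399518093590522030254701025028497048684222532497778874040912690487494202313636313815815313448077665439202410322342167065956186661081281480150802991088895608788203890938796099873275904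

/-- Codes of the colourings (2 colours) won by Bob at the start of round 2. -/
def b22 : ℕ := 6427752177038884105442510175201057779754244541170483206291456

theorem c43 : stageB 4 5 starNb true b43 false 0 = true := by decide +kernel

theorem c42 : stageB 4 5 starNb false b42 true b43 = true := by decide +kernel

theorem c41 : evB (colours 4) starNb (judge 4 5 false b42) 5 true (List.replicate 5 0) (List.range 5)
    = true := by decide +kernel

theorem d42 : stageA 4 5 starNb false a42 true (2 ^ 3125 - 1) = true := by decide +kernel

theorem d41 : evA (colours 4) starNb (judge 4 5 false a42) 5 true (List.replicate 5 0) (List.range 5)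
    = true := by decide +kernel

theorem c32 : stageB 3 5 starNb false b32 true 0 = true := by decide +kernel

theorem c31 : evB (colours 3) starNb (judge 3 5 false b32) 5 true (List.replicate 5 0) (List.range 5)
    = true := by decide +kernel

theorem c22 : stageB 2 5 starNb false b22 true 0 = true := by decide +kernel

theorem c21 : evB (colours 2) starNb (judge 2 5 false b22) 5 true (List.replicate 5 0) (List.range 5)
    = true := by decide +kernel

theorem c11 : evB (colours 1) starNb (judge 1 5 false 0) 5 true (List.replicate 5 0) (List.range 5)
    = true := by decide +kernel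

theorem bob4 : BobForces K14 3 (start (Fin 5) 4) :=
  firstB star_codes star_bounded 3 (by norm_num) false b42
    (stageB_sound star_codes star_bounded 3 2 (by norm_num) false b42 true b43
      (stageB_sound star_codes star_bounded 3 3 (by norm_num) true b43 false 0
        (goodB_zero _ _ _) c43) c42) c41

theorem alice4 : ¬ BobForces K14 2 (start (Fin 5) 4) :=
  firstA star_codes star_bounded 2 false a42
    (stageA_sound star_codes star_bounded 2 2 false a42 true (2 ^ 3125 - 1)
      (goodA_of_lt _ _ _ _ (by norm_num)) d42) d41

theorem bob3 : BobForces K14 2 (start (Fin 5) 3) :=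
  firstB star_codes star_bounded 2 (by norm_num) false b32
    (stageB_sound star_codes star_bounded 2 2 (by norm_num) false b32 true 0
      (goodB_zero _ _ _) c32) c31

theorem bob2 : BobForces K14 2 (start (Fin 5) 2) :=
  firstB star_codes star_bounded 2 (by norm_num) false b22
    (stageB_sound star_codes star_bounded 2 2 (by norm_num) false b22 true 0
      (goodB_zero _ _ _) c22) c21

theorem bob1 : BobForces K14 1 (start (Fin 5) 1) :=
  firstB star_codes star_bounded 1 (by norm_num) false 0 (goodB_zero _ _ _) c11

theorem chi_gt : 4 < chiInf K14 := by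
  have hne : {k | 1 ≤ k ∧ AliceWins K14 k}.Nonempty := by
    refine ⟨6, by norm_num, aliceWins_of_large K14 ?_⟩
    decide
  by_contra hle
  push Not at hle
  have hmem := Nat.sInf_mem hne
  change 1 ≤ chiInf K14 ∧ AliceWins K14 (chiInf K14) at hmem
  obtain ⟨h1, h2⟩ := hmem
  have hcases : chiInf K14 = 1 ∨ chiInf K14 = 2 ∨ chiInf K14 = 3 ∨ chiInf K14 = 4 := by
    omega
  rcases hcases with h | h | h | h <;> rw [h] at h2
  · exact not_aliceWins_of_bobForces K14 1 bob1 h2
  · exact not_aliceWins_of_bobForces K14 2 bob2 h2
  · exact not_aliceWins_of_bobForces K14 2 bob3 h2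
  · exact not_aliceWins_of_bobForces K14 3 bob4 h2

/-- With four colours on `K_{1,4}`, Bob wins (so `4 < χ_g^∞`) but he needs exactly three rounds. -/
theorem result : 4 < chiInf K14 ∧ rounds K14 4 = 3 := by
  refine ⟨chi_gt, ?_⟩
  apply le_antisymm
  · exact Nat.sInf_le bob4
  · by_contra hlt
    push Not at hlt
    have hmem := Nat.sInf_mem (s := {r | BobForces K14 r (start (Fin 5) 4)}) ⟨3, bob4⟩
    exact alice4 (BobForces.mono (by unfold rounds at hlt; omega) hmem)

end Pool.Agent.Results.MP_16080b_co.ThirdRound
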